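import Pool.Agent.helper60.XP.SpecE

/-!
# Project xp, module C2Q: zero energy
-/

set_option autoImplicit false

open Complex Metric Set Filter Topology MeasureTheory
open V3 (En ZL)

noncomputable section

namespace XPE

theorem C2Q_norm_le (θ b q : ℂ) (hθ : ‖θ‖ = 1) : ‖θ * q * (((‖b‖ : ℝ) : ℂ) / b)‖ ≤ ‖q‖ := by
  rw [norm_mul, norm_mul, hθ, one_mul]
  have h : ‖((‖b‖ : ℝ) : ℂ) / b‖ ≤ 1 := by
    rw [norm_div, Complex.norm_real, norm_norm]
    exact div_self_le_one _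
  calc ‖q‖ * ‖((‖b‖ : ℝ) : ℂ) / b‖ ≤ ‖q‖ * 1 := mul_le_mul_of_nonneg_left h (norm_nonneg _)
    _ = ‖q‖ := mul_one _

theorem C2Q_nonneg (θ : ℂ) (B q : ℂ → ℂ) (hθ : ‖θ‖ = 1) (x : ℂ) : 0 ≤ En θ B q x := by
  have h1 := C2Q_norm_le θ (B x) (q x) hθ
  have h2 := (Complex.re_le_norm (θ * q x * (((‖B x‖ : ℝ) : ℂ) / B x))).trans h1
  unfold En
  linarith

theorem C2Q_le (θ : ℂ) (B q : ℂ → ℂ) (hθ : ‖θ‖ = 1) (x : ℂ) : En θ B q x ≤ 2 * ‖q x‖ := by
  have h1 := C2Q_norm_le θ (B x) (q x) hθ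
  have h2 := Complex.abs_re_le_norm (θ * q x * (((‖B x‖ : ℝ) : ℂ) / B x))
  have h3 := neg_abs_le (θ * q x * (((‖B x‖ : ℝ) : ℂ) / B x)).re
  unfold En
  linarith

theorem C2Q_meas (θ : ℂ) (B q : ℂ → ℂ) (hB : Continuous B) (hq : Continuous q) :
    Measurable (En θ B q) := by
  have h1 := hB.measurable
  have h2 := hq.measurable
  unfold En
  fun_prop

theorem C2Q_int (θ : ℂ) (B q : ℂ → ℂ) (c : ℝ) (hθ : ‖θ‖ = 1) (hB : Continuous B) (hq : Continuous q) :
    IntegrableOn (En θ B q) (ball 0 c) := by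
  have h1 : IntegrableOn (fun x => 2 * ‖q x‖) (ball 0 c) := by
    have h2 : IntegrableOn (fun x => 2 * ‖q x‖) (closedBall (0 : ℂ) c) :=
      (by fun_prop : Continuous (fun x => 2 * ‖q x‖)).continuousOn.integrableOn_compact
        (isCompact_closedBall _ _)
    exact h2.mono_set ball_subset_closedBall
  refine Integrable.mono' h1 (C2Q_meas θ B q hB hq).aestronglyMeasurable ?_
  refine Filter.Eventually.of_forall fun x => ?_
  rw [Real.norm_eq_abs, abs_of_nonneg (C2Q_nonneg θ B q hθ x)]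
  exact C2Q_le θ B q hθ x

theorem C2Q_real (w : ℂ) (n : ℝ) (h : ‖w‖ ≤ n) (h2 : n - w.re = 0) : w.im = 0 := by
  have h3 : w.re = n := by linarith
  have h4 := Complex.sq_norm_sub_sq_re w
  have h5 : ‖w‖ ^ 2 ≤ n ^ 2 := pow_le_pow_left₀ (norm_nonneg _) h 2
  rw [h3] at h4
  have h6 : w.im ^ 2 ≤ 0 := by
    linarith
  exact pow_eq_zero_iff (two_ne_zero) |>.1 (le_antisymm h6 (sq_nonneg _))

theorem C2Q : C2Q_stmt := by
  intro θ B q c hθ hc hB hq hne hint
  have hBc := hB.continuous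
  have hqc := hq.continuous
  -- a point of the ball with `B ≠ 0`
  have hx0 : ∃ x₀ ∈ ball (0 : ℂ) c, B x₀ ≠ 0 := by
    by_contra hcon
    push Not at hcon
    obtain ⟨x, hx⟩ := hne
    apply hx
    have hBa : AnalyticOnNhd ℂ B univ := fun z _ => hB.analyticAt z
    have h1 : B =ᶠ[𝓝 (0 : ℂ)] 0 := by
      filter_upwards [ball_mem_nhds (0 : ℂ) hc] with y hy using hcon y hy
    exact hBa.eqOn_zero_of_preconnected_of_eventuallyEq_zero isPreconnected_univ (mem_univ 0) h1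
      (mem_univ x)
  obtain ⟨x₀, hx₀, hB₀⟩ := hx0
  have hev : ∀ᶠ x in 𝓝 x₀, x ∈ ball (0 : ℂ) c ∧ B x ≠ 0 :=
    Filter.Eventually.and (isOpen_ball.mem_nhds hx₀) (hBc.continuousAt.eventually_ne hB₀)
  obtain ⟨r, hr, hball⟩ := Metric.eventually_nhds_iff_ball.1 hev
  have hae : En θ B q =ᵐ[volume.restrict (ball (0 : ℂ) c)] 0 := by
    have h0 : ∫ x in ball (0 : ℂ) c, En θ B q x = 0 :=
      le_antisymm hint (integral_nonneg fun x => C2Q_nonneg θ B q hθ x)
    exact (integral_eq_zero_iff_of_nonneg (fun x => C2Q_nonneg θ B q hθ x)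
      (C2Q_int θ B q c hθ hBc hqc)).1 h0
  have hsub : ball x₀ r ⊆ ball (0 : ℂ) c := fun y hy => (hball y hy).1
  have hae2 : En θ B q =ᵐ[volume.restrict (ball x₀ r)] 0 :=
    ae_mono (Measure.restrict_mono hsub le_rfl) hae
  have hcont : ContinuousOn (En θ B q) (ball x₀ r) := by
    intro y hy
    have hy2 := (hball y hy).2
    apply ContinuousAt.continuousWithinAt
    unfold En
    have h1 : ContinuousAt (fun x => ((‖B x‖ : ℝ) : ℂ) / B x) y :=
      ContinuousAt.div (by fun_prop) hBc.continuousAt hy2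
    have h2 : ContinuousAt (fun x => θ * q x * (((‖B x‖ : ℝ) : ℂ) / B x)) y :=
      (by fun_prop : ContinuousAt (fun x => θ * q x) y).mul h1
    exact (by fun_prop : ContinuousAt (fun x => ‖q x‖) y).sub
      (Complex.continuous_re.continuousAt.comp h2)
  have hzero : EqOn (En θ B q) 0 (ball x₀ r) :=
    Measure.eqOn_open_of_ae_eq hae2 isOpen_ball hcont continuousOn_const
  -- the quotient is real
  have him : ∀ y ∈ ball x₀ r, (θ * q y / B y).im = 0 := by
    intro y hy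
    have h1 := hzero hy
    have h2 := C2Q_real (θ * q y * (((‖B y‖ : ℝ) : ℂ) / B y)) ‖q y‖ (C2Q_norm_le θ (B y) (q y) hθ) h1
    have hn : 0 < ‖B y‖ := norm_pos_iff.2 (hball y hy).2
    have h3 : θ * q y * (((‖B y‖ : ℝ) : ℂ) / B y) = ((‖B y‖ : ℝ) : ℂ) * (θ * q y / B y) := by ring
    rw [h3, Complex.im_ofReal_mul] at h2
    rcases mul_eq_zero.1 h2 with h4 | h4
    · exact absurd h4 hn.ne'
    · exact h4
  -- hence constant
  have hga : AnalyticOnNhd ℂ (fun y => θ * q y / B y) (ball x₀ r) := by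
    intro y hy
    exact (analyticAt_const.mul (hq.analyticAt y)).div (hB.analyticAt y) (hball y hy).2
  have hconst : ∃ w, ∀ z ∈ ball x₀ r, θ * q z / B z = w := by
    rcases hga.is_constant_or_isOpen (convex_ball x₀ r).isPreconnected with h1 | h1
    · exact h1
    · exfalso
      have h2 := h1 (ball x₀ r) subset_rfl isOpen_ball
      have h3 : θ * q x₀ / B x₀ ∈ (fun y => θ * q y / B y) '' ball x₀ r :=
        ⟨x₀, mem_ball_self hr, rfl⟩
      obtain ⟨e, he, hes⟩ := Metric.isOpen_iff.1 h2 _ h3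
      have h4 : θ * q x₀ / B x₀ + ((e / 2 : ℝ) : ℂ) * I ∈ ball (θ * q x₀ / B x₀) e := by
        rw [mem_ball, dist_eq_norm, add_sub_cancel_left, norm_mul, Complex.norm_I, mul_one,
          Complex.norm_real, Real.norm_eq_abs, abs_of_pos (by linarith)]
        linarith
      obtain ⟨y, hy, hyy⟩ := hes h4
      have h5 := him y hy
      have h6 := him x₀ (mem_ball_self hr)
      simp only at hyy
      rw [hyy, Complex.add_im, h6, Complex.im_ofReal_mul, Complex.I_im] at h5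
      linarith
  obtain ⟨w, hw⟩ := hconst
  refine ⟨w / θ, ?_⟩
  have hθ0 : θ ≠ 0 := by
    intro h
    rw [h, norm_zero] at hθ
    exact zero_ne_one hθ
  have hfa : AnalyticOnNhd ℂ q univ := fun z _ => hq.analyticAt z
  have hgb : AnalyticOnNhd ℂ (fun x => w / θ * B x) univ := fun z _ =>
    analyticAt_const.mul (hB.analyticAt z)
  have hloc : q =ᶠ[𝓝 x₀] fun x => w / θ * B x := by
    filter_upwards [ball_mem_nhds x₀ hr] with y hy
    have h1 := hw y hy
    have h2 := (hball y hy).2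
    rw [← h1]
    field_simp
  intro x
  exact hfa.eqOn_of_preconnected_of_eventuallyEq hgb isPreconnected_univ (mem_univ x₀) hloc
    (mem_univ x)

end XPE
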