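import Pool.Agent.helper54.XP.SpecG

/-!
# Project xp, module GAN: the linear parts have absolute value one
-/

set_option autoImplicit false

open Complex Metric Set Filter Topology MeasureTheory XP
open V3S (UF)

noncomputable section

namespace XPG

theorem GAN (h : GAG_stmt) : GAN_stmt := by
  intro n C C' C'' D A hG hL hA
  have hC : 0 < 1 / C := by
    have := hL.C1
    positivity
  have hlow : ∀ p ∈ Pin D, 1 ≤ ‖A p‖ := by
    intro p hp
    have hpow : ∀ j : ℕ, ∃ q ∈ Pin D, A q = A p ^ j := by
      intro j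
      induction j with
      | zero => exact ⟨0, hL.P0, by rw [hA.one, pow_zero]⟩
      | succ j ih =>
        obtain ⟨q, hq, e⟩ := ih
        obtain ⟨h1, h2⟩ := h n C C' C'' D A hG hL hA p hp q hq
        exact ⟨p + A p * q, h1, by rw [h2, e, pow_succ']⟩
    by_contra hlt
    push Not at hlt
    obtain ⟨j, hj⟩ := exists_pow_lt_of_lt_one hC hlt
    obtain ⟨q, hq, e⟩ := hpow j
    have h3 := hA.low q hq
    rw [e, norm_pow] at h3
    linarith
  refine ⟨hA.one, fun p hp => ?_, hA.inv, hA.tend, hA.neg, hA.unif⟩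
  have h1 := hlow p hp
  obtain ⟨h2, h3⟩ := hA.inv p hp
  have h4 := hlow _ h2
  rw [h3, norm_div, norm_one, le_div_iff₀ (by linarith), one_mul] at h4
  exact le_antisymm h4 h1

end XPG
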